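import Mathlib
import Pool.Agent.Helper38_LDP.Stmts

/-! Squad LDP: modules MON and NUM (helper8) -/

namespace Pool.Agent.LDP.H8

open Polynomial Pool.Agent.LDP
open scoped Polynomial.Bivariate

theorem natDegree_coeff_le {L : Type*} [CommRing L] {ρ a b : ℕ} {f : L[X][Y]}
    (hf : f ∈ V ρ L a b) (j : ℕ) : (f.coeff j).natDegree ≤ a - ρ * j := by
  rw [Polynomial.natDegree_le_iff_coeff_eq_zero]
  intro N hN
  by_contra h
  have := (hf N j h).2
  omega

theorem mon : MonStmt := by
  intro ρ d m L _ _ f hpar hf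
  have hd2 : 2 ≤ d := by
    rcases hpar with ⟨_, h, _⟩ | ⟨_, h, _⟩ <;> omega
  have hm : ρ * (d - 1) < m := by
    rcases hpar with ⟨h1, h2, h3⟩ | ⟨h1, h2, h3⟩
    · subst h1; simp; omega
    · subst h1; subst h2; omega
  -- the top coefficient
  have hfd_le : (f.coeff d).natDegree ≤ d := by
    have h := natDegree_coeff_le hf.mem d
    have h2 : (1 + ρ) * d - ρ * d = d := by
      rw [Nat.add_mul, one_mul, Nat.add_sub_cancel]
    omega
  have hfd_monic : (f.coeff d).Monic := Polynomial.monic_of_natDegree_le_of_coeff_eq_one d hfd_le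
    hf.corner
  have hfd_deg : (f.coeff d).natDegree = d := by
    apply le_antisymm hfd_le
    apply Polynomial.le_natDegree_of_ne_zero
    rw [hf.corner]
    exact one_ne_zero
  have hw_monic : (wP m d f).Monic := (Polynomial.monic_X_pow m).mul hfd_monic
  have hw_deg : (wP m d f).natDegree = m + d := by
    rw [wP, (Polynomial.monic_X_pow m).natDegree_mul hfd_monic, Polynomial.natDegree_X_pow, hfd_deg]
  have hf0 : (-(f.coeff 0)).natDegree ≤ (1 + ρ) * d := by
    rw [Polynomial.natDegree_neg]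
    simpa using natDegree_coeff_le hf.mem 0
  -- main term
  have hA_monic : (X ^ m * (wP m d f) ^ (d - 1)).Monic :=
    (Polynomial.monic_X_pow m).mul (hw_monic.pow _)
  have hA_deg : (X ^ m * (wP m d f) ^ (d - 1)).natDegree = d * (m + d - 1) := by
    rw [(Polynomial.monic_X_pow m).natDegree_mul (hw_monic.pow _), Polynomial.natDegree_X_pow,
      hw_monic.natDegree_pow, hw_deg]
    obtain ⟨e, rfl⟩ : ∃ e, d = e + 2 := ⟨d - 2, by omega⟩
    have h1 : e + 2 - 1 = e + 1 := by omega
    have h2 : m + (e + 2) - 1 = m + (e + 1) := by omega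
    rw [h1, h2]
    ring
  -- last term
  have hC_deg : ((-(f.coeff 0)) ^ (d - 1)).natDegree < d * (m + d - 1) := by
    have h1 := Polynomial.natDegree_pow_le_of_le (d - 1) hf0
    obtain ⟨e, rfl⟩ : ∃ e, d = e + 2 := ⟨d - 2, by omega⟩
    have h2 : e + 2 - 1 = e + 1 := by omega
    have h3 : m + (e + 2) - 1 = m + (e + 1) := by omega
    rw [h2] at h1 hm
    rw [h3, h2]
    refine lt_of_le_of_lt h1 ?_
    have h4 : (e + 1) * ((1 + ρ) * (e + 2)) = (e + 2) * (ρ * (e + 1) + (e + 1)) := by ring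
    rw [h4]
    apply Nat.mul_lt_mul_of_pos_left _ (by omega)
    omega
  -- the middle terms
  have hB_deg : (∑ j ∈ Finset.Ico 1 d, f.coeff j * (-(f.coeff 0)) ^ (j - 1)
        * (X ^ m * (wP m d f) ^ (d - 1 - j))).natDegree < d * (m + d - 1) := by
    have hpos : 0 < d * (m + d - 1) := Nat.mul_pos (by omega) (by omega)
    have : (∑ j ∈ Finset.Ico 1 d, f.coeff j * (-(f.coeff 0)) ^ (j - 1)
        * (X ^ m * (wP m d f) ^ (d - 1 - j))).natDegree ≤ d * (m + d - 1) - 1 := by
      apply Polynomial.natDegree_sum_le_of_forall_le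
      intro j hj
      rw [Finset.mem_Ico] at hj
      have h1 := natDegree_coeff_le hf.mem j
      have h2 := Polynomial.natDegree_pow_le_of_le (j - 1) hf0
      have h3 : (X ^ m * (wP m d f) ^ (d - 1 - j)).natDegree ≤ m + (d - 1 - j) * (m + d) := by
        rw [(Polynomial.monic_X_pow m).natDegree_mul (hw_monic.pow _),
          Polynomial.natDegree_X_pow, hw_monic.natDegree_pow, hw_deg]
      have h4 := (Polynomial.natDegree_mul_le (p := f.coeff j * (-(f.coeff 0)) ^ (j - 1))
        (q := (X ^ m * (wP m d f) ^ (d - 1 - j))))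
      have h5 := (Polynomial.natDegree_mul_le (p := f.coeff j) (q := (-(f.coeff 0)) ^ (j - 1)))
      obtain ⟨i, rfl⟩ : ∃ i, j = i + 1 := ⟨j - 1, by omega⟩
      obtain ⟨e, rfl⟩ : ∃ e, d = i + 1 + 1 + e := ⟨d - (i + 2), by omega⟩
      have e1 : i + 1 + 1 + e - 1 - (i + 1) = e := by omega
      have e2 : i + 1 - 1 = i := by omega
      have e3 : m + (i + 1 + 1 + e) - 1 = m + (i + 1 + e) := by omega
      have e4 : i + 1 + 1 + e - 1 = i + 1 + e := by omega
      rw [e1] at h3 h4 ⊢
      rw [e2] at h2 h4 h5 ⊢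
      rw [e3]
      rw [e4] at hm
      have e5 : (1 + ρ) * (i + 1 + 1 + e) - ρ * (i + 1) = (i + 1 + 1 + e) + ρ * (1 + e) := by
        have : (1 + ρ) * (i + 1 + 1 + e) = ((i + 1 + 1 + e) + ρ * (1 + e)) + ρ * (i + 1) := by ring
        rw [this, Nat.add_sub_cancel]
      rw [e5] at h1
      have key : (i + 1 + 1 + e) + ρ * (1 + e) + i * ((1 + ρ) * (i + 1 + 1 + e)) +
          (m + e * (m + (i + 1 + 1 + e))) + (i + 1) * (m - ρ * (i + 1 + e)) =
          (i + 1 + 1 + e) * (m + (i + 1 + e)) := by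
        obtain ⟨q, hq⟩ : ∃ q, m = ρ * (i + 1 + e) + q := ⟨m - ρ * (i + 1 + e), by omega⟩
        have hq' : m - ρ * (i + 1 + e) = q := by omega
        rw [hq', hq]
        ring
      have key2 : 1 ≤ (i + 1) * (m - ρ * (i + 1 + e)) :=
        Nat.mul_pos (by omega) (by omega)
      omega
    omega
  have hAB_deg := Polynomial.natDegree_sub_eq_left_of_natDegree_lt (hA_deg ▸ hB_deg)
  have hAB_monic := hA_monic.sub_of_left (Polynomial.degree_lt_degree (hA_deg ▸ hB_deg))
  have hC2 : ((-(f.coeff 0)) ^ (d - 1)).natDegree < (X ^ m * (wP m d f) ^ (d - 1)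
    - (∑ j ∈ Finset.Ico 1 d, f.coeff j * (-(f.coeff 0)) ^ (j - 1)
        * (X ^ m * (wP m d f) ^ (d - 1 - j)))).natDegree := by
    rw [hAB_deg, hA_deg]
    exact hC_deg
  constructor
  · exact hAB_monic.sub_of_left (Polynomial.degree_lt_degree hC2)
  · rw [RR, Polynomial.natDegree_sub_eq_left_of_natDegree_lt hC2, hAB_deg, hA_deg]

theorem sum_mul_hom {A : Type*} [CommRing A] (f H : A[X]) (d b : ℕ) (hf : f.natDegree ≤ d)
    (hH : H.natDegree ≤ b) (z w : A) :
    ∑ j ∈ Finset.range (b + d + 1), (f * H).coeff j * z ^ j * w ^ (b + d - j) =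
      (∑ i ∈ Finset.range (d + 1), f.coeff i * z ^ i * w ^ (d - i)) *
        ∑ j ∈ Finset.range (b + 1), H.coeff j * z ^ j * w ^ (b - j) := by
  rw [Finset.sum_mul_sum, ← Finset.sum_product']
  simp_rw [Polynomial.coeff_mul, Finset.sum_mul]
  rw [Finset.sum_sigma']
  symm
  refine Finset.sum_of_injOn (fun x : ℕ × ℕ => (⟨x.1 + x.2, x⟩ : (_ : ℕ) × (ℕ × ℕ))) ?_ ?_ ?_ ?_
  · rintro x - y - h
    simpa using (Sigma.mk.inj_iff.1 h).2
  · rintro ⟨i, j⟩ h
    simp only [Finset.coe_product, Set.mem_prod, Finset.mem_coe, Finset.mem_range] at h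
    simp only [Finset.mem_coe, Finset.mem_sigma, Finset.mem_range]
    exact ⟨by omega, Finset.HasAntidiagonal.mem_antidiagonal.2 rfl⟩
  · rintro ⟨n, ⟨i, j⟩⟩ h1 h2
    simp only [Finset.mem_sigma, Finset.mem_range] at h1
    have h3 : i + j = n := Finset.HasAntidiagonal.mem_antidiagonal.1 h1.2
    by_cases hi : i ≤ d
    · by_cases hj : j ≤ b
      · exfalso
        apply h2
        refine ⟨(i, j), ?_, ?_⟩
        · simp only [Finset.coe_product, Set.mem_prod, Finset.mem_coe, Finset.mem_range]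
          omega
        · simp [h3]
      · have : H.coeff j = 0 := Polynomial.coeff_eq_zero_of_natDegree_lt (by omega)
        simp [this]
    · have : f.coeff i = 0 := Polynomial.coeff_eq_zero_of_natDegree_lt (by omega)
      simp [this]
  · rintro ⟨i, j⟩ h
    simp only [Finset.mem_product, Finset.mem_range] at h
    have e1 : b + d - (i + j) = (d - i) + (b - j) := by omega
    simp only [e1, pow_add]
    ring

theorem num_self {L : Type*} [CommRing L] (m d : ℕ) (hd : 1 ≤ d) (f : L[X][Y]) :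
    num m d d f f = f.coeff 0 * f.coeff d * RR m d f := by
  obtain ⟨e, rfl⟩ : ∃ e, d = e + 1 := ⟨d - 1, by omega⟩
  rw [num, Finset.sum_range_succ, Finset.sum_range_succ', RR]
  have h1 : ∑ j ∈ Finset.Ico 1 (e + 1), f.coeff j * (-(f.coeff 0)) ^ (j - 1)
        * (X ^ m * (wP m (e + 1) f) ^ (e + 1 - 1 - j)) =
      ∑ k ∈ Finset.range e, f.coeff (k + 1) * (-(f.coeff 0)) ^ k
        * (X ^ m * (wP m (e + 1) f) ^ (e - (k + 1))) := by
    rw [Finset.sum_Ico_eq_sum_range]
    simp only [Nat.add_sub_cancel]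
    refine Finset.sum_congr rfl fun k _ => ?_
    have e1 : 1 + k - 1 = k := by omega
    have e2 : e - (1 + k) = e - (k + 1) := by omega
    rw [e1, e2, Nat.add_comm 1 k]
  rw [h1]
  have h2 : ∑ k ∈ Finset.range e, f.coeff (k + 1) * (-f.coeff 0) ^ (k + 1) *
        wP m (e + 1) f ^ (e + 1 - (k + 1)) =
      (-(f.coeff 0 * f.coeff (e + 1))) * ∑ k ∈ Finset.range e, f.coeff (k + 1) *
        (-(f.coeff 0)) ^ k * (X ^ m * (wP m (e + 1) f) ^ (e - (k + 1))) := by
    rw [Finset.mul_sum]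
    refine Finset.sum_congr rfl fun k hk => ?_
    rw [Finset.mem_range] at hk
    have e1 : e + 1 - (k + 1) = (e - (k + 1)) + 1 := by omega
    rw [e1, pow_succ (wP m (e + 1) f), pow_succ (-(f.coeff 0))]
    have hw : wP m (e + 1) f = X ^ m * f.coeff (e + 1) := rfl
    have : ∀ y : L[X], y * wP m (e + 1) f = y * (X ^ m * f.coeff (e + 1)) := fun y => by rw [hw]
    rw [this]
    ring
  rw [h2]
  simp only [pow_zero, mul_one, Nat.sub_zero, Nat.sub_self, Nat.add_sub_cancel]
  have h3 : wP m (e + 1) f ^ (e + 1) = X ^ m * f.coeff (e + 1) * wP m (e + 1) f ^ e := by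
    rw [pow_succ, mul_comm]
    rfl
  rw [h3, pow_succ (-(f.coeff 0))]
  ring

theorem num_mul {L : Type*} [CommRing L] (m d b : ℕ) (f H : L[X][Y]) (hf : f.natDegree ≤ d)
    (hH : H.natDegree ≤ b) :
    num m d (b + d) f (f * H) = num m d d f f * num m d b f H :=
  sum_mul_hom f H d b hf hH _ _

theorem numS : NumStmt := by
  intro m d b L _ f H hd hf hH
  rw [num_mul m d b f H hf hH, num_self m d hd f]

end Pool.Agent.LDP.H8
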